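import Mathlib

set_option autoImplicit false

namespace Pool.Agent.H.MP_fd3e90_al

/-- Two by two matrices over the field with three elements, as quadruples. -/
abbrev R4 := ZMod 3 × ZMod 3 × ZMod 3 × ZMod 3

def dt (x : R4) : ZMod 3 := x.1 * x.2.2.2 - x.2.1 * x.2.2.1

def ml (x y : R4) : R4 :=
  (x.1 * y.1 + x.2.1 * y.2.2.1, x.1 * y.2.1 + x.2.1 * y.2.2.2,
    x.2.2.1 * y.1 + x.2.2.2 * y.2.2.1, x.2.2.1 * y.2.1 + x.2.2.2 * y.2.2.2)

def iv (x : R4) : R4 := (dt x * x.2.2.2, -(dt x * x.2.1), -(dt x * x.2.2.1), dt x * x.1)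

lemma dt_ml (x y : R4) : dt (ml x y) = dt x * dt y := by
  simp only [dt, ml]; ring

lemma mul_ne : ∀ a b : ZMod 3, a ≠ 0 → b ≠ 0 → a * b ≠ 0 := by decide

lemma dt_iv : ∀ x : R4, dt x ≠ 0 → dt (iv x) ≠ 0 := by decide +kernel

lemma iv_ml : ∀ x : R4, dt x ≠ 0 → ml (iv x) x = (1, 0, 0, 1) := by decide +kernel

/-- The general linear group of degree two over the field with three elements. -/
def EE := {x : R4 // dt x ≠ 0}

instance : DecidableEq EE := inferInstanceAs (DecidableEq {x : R4 // dt x ≠ 0})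
instance : Finite EE := inferInstanceAs (Finite {x : R4 // dt x ≠ 0})

instance : Mul EE := ⟨fun x y => ⟨ml x.1 y.1, by rw [dt_ml]; exact mul_ne _ _ x.2 y.2⟩⟩
instance : One EE := ⟨⟨(1, 0, 0, 1), by decide⟩⟩
instance : Inv EE := ⟨fun x => ⟨iv x.1, dt_iv _ x.2⟩⟩

lemma mul_val (x y : EE) : (x * y).1 = ml x.1 y.1 := rfl
lemma one_val : (1 : EE).1 = (1, 0, 0, 1) := rfl
lemma inv_val (x : EE) : (x⁻¹).1 = iv x.1 := rfl

instance : Group EE := Group.ofLeftAxioms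
  (fun x y z => Subtype.ext (by
    simp only [mul_val, ml, Prod.mk.injEq]
    refine ⟨?_, ?_, ?_, ?_⟩ <;> ring))
  (fun x => Subtype.ext (by simp [mul_val, one_val, ml]))
  (fun x => Subtype.ext (iv_ml _ x.2))

def sg (a : ZMod 3) : ZMod 2 := if a = 1 then 0 else 1

lemma sg_mul : ∀ a b : ZMod 3, a ≠ 0 → b ≠ 0 → sg (a * b) = sg a + sg b := by decide

def dl : EE →* Multiplicative (ZMod 2) := MonoidHom.mk' (fun x => Multiplicative.ofAdd (sg (dt x.1)))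
  (fun x y => by
    rw [mul_val, dt_ml, sg_mul _ _ x.2 y.2, ofAdd_add])

def cm (x y : R4) : R4 := ml (ml (ml (iv x) (iv y)) x) y

lemma cmv (x y : EE) : (x⁻¹ * y⁻¹ * x * y).1 = cm x.1 y.1 := rfl

def QQ (u : R4) : Prop := dt u = 1 ∧ ml (ml u u) (ml u u) = (1, 0, 0, 1)

instance (u : R4) : Decidable (QQ u) := inferInstanceAs (Decidable (_ ∧ _))

def aa : R4 := (1, 1, 0, 1)
def ii : R4 := (0, 1, -1, 0)

def CC (u : R4) : Prop := QQ (ml u (iv aa))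

instance (u : R4) : Decidable (CC u) := inferInstanceAs (Decidable (QQ _))

lemma f1 : ∀ u : R4, CC u → ∀ x : R4, dt x ≠ 0 → sg (dt x) = 1 → CC (cm u x) := by decide +kernel
lemma f2 : ∀ u : R4, CC u → ∀ x : R4, dt x ≠ 0 → sg (dt x) = 0 → QQ (cm u x) := by decide +kernel
lemma f3 : ∀ u : R4, QQ u → ∀ x : R4, dt x ≠ 0 → QQ (cm u x) := by decide +kernel
lemma f4 : ∀ u : R4, CC u → cm (cm ii u) ii = (-1, 0, 0, -1) := by decide +kernel
lemma f5 : ∀ u : R4, QQ u → cm (cm ii u) ii = (1, 0, 0, 1) := by decide +kernel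

/-- The data about the small group that the construction uses. -/
structure Data (E : Type) [Group E] where
  δ : E →* Multiplicative (ZMod 2)
  z : E
  a : E
  i : E
  b : E
  Q : E → Prop
  C : E → Prop
  z1 : z ≠ 1
  z2 : z * z = 1
  zc : ∀ g, g * z = z * g
  δa : δ a = 1
  δi : δ i = 1
  δb : δ b = Multiplicative.ofAdd 1
  Ca : C a
  g1 : ∀ u x, C u → δ x = Multiplicative.ofAdd 1 → C (u⁻¹ * x⁻¹ * u * x)
  g2 : ∀ u x, C u → δ x = 1 → Q (u⁻¹ * x⁻¹ * u * x)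
  g3 : ∀ u x, Q u → Q (u⁻¹ * x⁻¹ * u * x)
  g4 : ∀ u, C u → (i⁻¹ * u⁻¹ * i * u)⁻¹ * i⁻¹ * (i⁻¹ * u⁻¹ * i * u) * i = z
  g5 : ∀ u, Q u → (i⁻¹ * u⁻¹ * i * u)⁻¹ * i⁻¹ * (i⁻¹ * u⁻¹ * i * u) * i = 1

def data : Data EE where
  δ := dl
  z := ⟨(-1, 0, 0, -1), by decide⟩
  a := ⟨aa, by decide⟩
  i := ⟨ii, by decide⟩
  b := ⟨(1, 0, 0, -1), by decide⟩
  Q := fun u => QQ u.1
  C := fun u => CC u.1
  z1 := by decide
  z2 := by decide
  zc := fun g => Subtype.ext (by simp [mul_val, ml])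
  δa := by decide
  δi := by decide
  δb := by decide
  Ca := by decide
  g1 := fun u x hu hx => f1 u.1 hu x.1 x.2 hx
  g2 := fun u x hu hx => f2 u.1 hu x.1 x.2 hx
  g3 := fun u x hu => f3 u.1 hu x.1 x.2
  g4 := fun u hu => Subtype.ext (by rw [cmv, cmv]; exact f4 u.1 hu)
  g5 := fun u hu => Subtype.ext (by rw [cmv, cmv]; exact f5 u.1 hu)

end Pool.Agent.H.MP_fd3e90_al
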