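import Pool.Agent.H.MP_fd3e90_al.A

set_option autoImplicit false

namespace Pool.Agent.H.MP_fd3e90_al

open Classical

lemma nat_lift {γ M M' : Type} [Group M] [Group M'] (f : M →* M') (x : ℕ → M) (c : γ → M)
    (w : FreeGroup (ℕ ⊕ γ)) :
    f (FreeGroup.lift (Sum.elim x c) w) = FreeGroup.lift (Sum.elim (f ∘ x) (f ∘ c)) w := by
  have : f.comp (FreeGroup.lift (Sum.elim x c)) = FreeGroup.lift (Sum.elim (f ∘ x) (f ∘ c)) := by
    ext (i | g) <;> simp
  exact DFunLike.congr_fun this w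

lemma dep {γ M : Type} [Group M] (w : FreeGroup (ℕ ⊕ γ)) : ∃ n : ℕ, ∀ (x x' : ℕ → M) (c : γ → M),
    (∀ i < n, x i = x' i) →
      FreeGroup.lift (Sum.elim x c) w = FreeGroup.lift (Sum.elim x' c) w := by
  induction w using FreeGroup.induction_on with
  | C1 => exact ⟨0, fun _ _ _ _ => by simp⟩
  | of a =>
    rcases a with i | g
    · exact ⟨i + 1, fun x x' c h => by simpa using h i (by omega)⟩
    · exact ⟨0, fun _ _ _ _ => by simp⟩
  | inv_of a ih =>
    obtain ⟨n, hn⟩ := ih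
    exact ⟨n, fun x x' c h => by rw [map_inv, map_inv, hn x x' c h]⟩
  | mul u v hu hv =>
    obtain ⟨n, hn⟩ := hu
    obtain ⟨n', hn'⟩ := hv
    refine ⟨max n n', fun x x' c h => ?_⟩
    rw [map_mul, map_mul, hn x x' c (fun i hi => h i (by omega)),
      hn' x x' c (fun i hi => h i (by omega))]

def UU {M : Type} [Group M] (A : M) (x : ℕ → M) : ℕ → M
  | 0 => A
  | j + 1 => (UU A x j)⁻¹ * (x j)⁻¹ * UU A x j * x j

def VV {M : Type} [Group M] (A I : M) (x : ℕ → M) (m : ℕ) : M :=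
  (I⁻¹ * (UU A x m)⁻¹ * I * UU A x m)⁻¹ * I⁻¹ * (I⁻¹ * (UU A x m)⁻¹ * I * UU A x m) * I

lemma map_UU {M M' : Type} [Group M] [Group M'] (f : M →* M') (A : M) (x : ℕ → M) (m : ℕ) :
    f (UU A x m) = UU (f A) (f ∘ x) m := by
  induction m with
  | zero => rfl
  | succ m ih => simp only [UU, map_mul, map_inv, ih, Function.comp]

lemma map_VV {M M' : Type} [Group M] [Group M'] (f : M →* M') (A I : M) (x : ℕ → M) (m : ℕ) :
    f (VV A I x m) = VV (f A) (f I) (f ∘ x) m := by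
  simp only [VV, map_mul, map_inv, map_UU]

lemma VV_one {M : Type} [Group M] (A : M) (x : ℕ → M) (m : ℕ) : VV A 1 x m = 1 := by
  simp [VV]

lemma two_cases : ∀ y : Multiplicative (ZMod 2), y = 1 ∨ y = Multiplicative.ofAdd 1 := by decide

lemma even_sum {m : ℕ} (f : (Fin m → ZMod 2) → ZMod 2) (t : Fin m → ZMod 2) (ht : t ≠ 0)
    (hf : ∀ l, f (l + t) = f l) : ∑ l, f l = 0 := by
  have h2 : ∀ a : ZMod 2, a + a = 0 := by decide
  refine Finset.sum_involution (fun l _ => l + t) (fun l _ => by rw [hf, h2]) ?_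
    (fun _ _ => Finset.mem_univ _) ?_
  · intro l _ _ h
    exact ht (by simpa using h)
  · intro l _
    funext j
    simp only [Pi.add_apply]
    rw [add_assoc, h2, add_zero]

section
variable {E : Type} [Group E] (P : Data E)

lemma VE (x : ℕ → E) (m : ℕ) :
    VV P.a P.i x m = if (∀ j < m, P.δ (x j) = Multiplicative.ofAdd 1) then P.z else 1 := by
  have key : ((∀ j < m, P.δ (x j) = Multiplicative.ofAdd 1) → P.C (UU P.a x m)) ∧
      (¬ (∀ j < m, P.δ (x j) = Multiplicative.ofAdd 1) → P.Q (UU P.a x m)) := by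
    induction m with
    | zero => exact ⟨fun _ => P.Ca, fun h => absurd (fun j hj => absurd hj (by omega)) h⟩
    | succ m ih =>
      refine ⟨fun h => P.g1 _ _ (ih.1 fun j hj => h j (by omega)) (h m (by omega)), fun h => ?_⟩
      by_cases h1 : ∀ j < m, P.δ (x j) = Multiplicative.ofAdd 1
      · rcases two_cases (P.δ (x m)) with h2 | h2
        · exact P.g2 _ _ (ih.1 h1) h2
        · refine absurd (fun j hj => ?_) h
          rcases Nat.lt_succ_iff_lt_or_eq.1 hj with h3 | rfl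
          · exact h1 j h3
          · exact h2
      · exact P.g3 _ _ (ih.2 h1)
  split_ifs with h
  · exact P.g4 _ (key.1 h)
  · exact P.g5 _ (key.2 h)

def DD : Subgroup (E × E) := (P.δ.comp (MonoidHom.fst E E)).eqLocus (P.δ.comp (MonoidHom.snd E E))

lemma DD_prop (d : DD P) : P.δ d.1.1 = P.δ d.1.2 := d.2

def p1 : DD P →* E := (MonoidHom.fst E E).comp (DD P).subtype
def p2 : DD P →* E := (MonoidHom.snd E E).comp (DD P).subtype

lemma DD_ext {d e : DD P} (h1 : p1 P d = p1 P e) (h2 : p2 P d = p2 P e) : d = e :=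
  Subtype.ext (Prod.ext h1 h2)

def zz : DD P := ⟨(P.z, P.z), rfl⟩

lemma zz_ne : zz P ≠ 1 := fun h => P.z1 (congrArg (p1 P) h)

lemma zz_sq : zz P * zz P = 1 := Subtype.ext (Prod.ext P.z2 P.z2)

lemma zz_c (g : DD P) : g * zz P = zz P * g := Subtype.ext (Prod.ext (P.zc _) (P.zc _))

def ZZ : Subgroup (DD P) where
  carrier := {d | d = 1 ∨ d = zz P}
  one_mem' := Or.inl rfl
  mul_mem' := by
    rintro a b (rfl | rfl) (rfl | rfl)
    · left; simp
    · right; simp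
    · right; simp
    · left; exact zz_sq P
  inv_mem' := by
    rintro a (rfl | rfl)
    · left; simp
    · right; exact inv_eq_of_mul_eq_one_right (zz_sq P)

lemma ZZ_conj {d : DD P} (h : d ∈ ZZ P) (g : DD P) : g * d * g⁻¹ = d := by
  rcases h with rfl | rfl
  · simp
  · rw [zz_c]; simp

instance : (ZZ P).Normal := ⟨fun d h g => by rw [ZZ_conj P h]; exact h⟩

lemma ZZ_eq1 {d e : DD P} (hd : d ∈ ZZ P) (he : e ∈ ZZ P) (h : p1 P d = p1 P e) : d = e := by
  rcases hd with rfl | rfl <;> rcases he with rfl | rfl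
  · rfl
  · exact absurd h.symm P.z1
  · exact absurd h P.z1
  · rfl

lemma ZZ_eq2 {d e : DD P} (hd : d ∈ ZZ P) (he : e ∈ ZZ P) (h : p2 P d = p2 P e) : d = e := by
  rcases hd with rfl | rfl <;> rcases he with rfl | rfl
  · rfl
  · exact absurd h.symm P.z1
  · exact absurd h P.z1
  · rfl

abbrev GG := DD P ⧸ ZZ P

noncomputable def ss : GG P → DD P := Quotient.out

lemma inZ {w : FreeGroup (ℕ ⊕ GG P)} (hw : ∀ x : ℕ → GG P, FreeGroup.lift (Sum.elim x id) w = 1)
    (x : ℕ → DD P) : FreeGroup.lift (Sum.elim x (ss P)) w ∈ ZZ P := by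
  rw [← QuotientGroup.eq_one_iff]
  have h := nat_lift (QuotientGroup.mk' (ZZ P)) x (ss P) w
  have h2 : (QuotientGroup.mk' (ZZ P)) ∘ ss P = id := by
    funext g
    exact Quotient.out_eq g
  rw [h2, hw] at h
  exact h

lemma lemA {w : FreeGroup (ℕ ⊕ GG P)} (hw : ∀ x : ℕ → GG P, FreeGroup.lift (Sum.elim x id) w = 1)
    {n : ℕ} (hn : ∀ (x x' : ℕ → E) (c : GG P → E), (∀ i < n, x i = x' i) →
      FreeGroup.lift (Sum.elim x c) w = FreeGroup.lift (Sum.elim x' c) w)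
    (x x' : ℕ → DD P) (h : ∀ i < n, P.δ (x i).1.1 = P.δ (x' i).1.1) :
    FreeGroup.lift (Sum.elim x (ss P)) w = FreeGroup.lift (Sum.elim x' (ss P)) w := by
  let y : ℕ → DD P := fun i => if hi : i < n then
    ⟨((x i).1.1, (x' i).1.2), (h i hi).trans (DD_prop P (x' i))⟩ else x i
  have h1 : FreeGroup.lift (Sum.elim x (ss P)) w = FreeGroup.lift (Sum.elim y (ss P)) w := by
    refine ZZ_eq1 P (inZ P hw _) (inZ P hw _) ?_
    rw [nat_lift, nat_lift]
    refine hn _ _ _ fun i hi => ?_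
    simp only [Function.comp, y, dif_pos hi]
    rfl
  have h2 : FreeGroup.lift (Sum.elim y (ss P)) w = FreeGroup.lift (Sum.elim x' (ss P)) w := by
    refine ZZ_eq2 P (inZ P hw _) (inZ P hw _) ?_
    rw [nat_lift, nat_lift]
    refine hn _ _ _ fun i hi => ?_
    simp only [Function.comp, y, dif_pos hi]
    rfl
  exact h1.trans h2

def KK (m : ℕ) : Subgroup ((Fin m → ZMod 2) → DD P) where
  carrier := {k | ∃ φ : (Fin m → ZMod 2) →+ ZMod 2, ∃ c : ZMod 2,
    ∀ l, Multiplicative.toAdd (P.δ (k l).1.1) = φ l + c}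
  one_mem' := ⟨0, 0, fun l => by simp⟩
  mul_mem' := by
    rintro a b ⟨φ, c, h⟩ ⟨ψ, d, h'⟩
    refine ⟨φ + ψ, c + d, fun l => ?_⟩
    have : P.δ ((a * b) l).1.1 = P.δ (a l).1.1 * P.δ (b l).1.1 := map_mul P.δ _ _
    rw [this, toAdd_mul, h, h', AddMonoidHom.add_apply]
    ring
  inv_mem' := by
    rintro a ⟨φ, c, h⟩
    refine ⟨-φ, -c, fun l => ?_⟩
    have : P.δ ((a⁻¹) l).1.1 = (P.δ (a l).1.1)⁻¹ := map_inv P.δ _
    rw [this, toAdd_inv, h, AddMonoidHom.neg_apply]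
    ring

noncomputable def chi (d : DD P) : ZMod 2 := if d = 1 then 0 else 1

lemma chi_mul {d e : DD P} (hd : d ∈ ZZ P) (he : e ∈ ZZ P) : chi P (d * e) = chi P d + chi P e := by
  rcases hd with rfl | rfl <;> rcases he with rfl | rfl
  · simp [chi]
  · simp [chi]
  · simp [chi]
  · rw [zz_sq]
    simp only [chi, if_true, if_neg (zz_ne P)]
    decide

lemma chi_inv (d : DD P) : chi P d⁻¹ = chi P d := by simp [chi]

def NN (m : ℕ) : Subgroup (KK P m) where
  carrier := {k | (∀ l, k.1 l ∈ ZZ P) ∧ ∑ l, chi P (k.1 l) = 0}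
  one_mem' := ⟨fun _ => (ZZ P).one_mem, by simp [chi]⟩
  mul_mem' := by
    rintro a b ⟨h1, h2⟩ ⟨h3, h4⟩
    refine ⟨fun l => (ZZ P).mul_mem (h1 l) (h3 l), ?_⟩
    have : ∀ l, chi P ((a * b).1 l) = chi P (a.1 l) + chi P (b.1 l) := fun l =>
      chi_mul P (h1 l) (h3 l)
    simp only [this, Finset.sum_add_distrib, h2, h4, add_zero]
  inv_mem' := by
    rintro a ⟨h1, h2⟩
    refine ⟨fun l => (ZZ P).inv_mem (h1 l), ?_⟩
    have : ∀ l, chi P ((a⁻¹).1 l) = chi P (a.1 l) := fun l => chi_inv P _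
    simp only [this, h2]

instance (m : ℕ) : (NN P m).Normal := ⟨fun k h g => by
  have : g * k * g⁻¹ = k := Subtype.ext (funext fun l => ZZ_conj P (h.1 l) _)
  rw [this]; exact h⟩

def diag (m : ℕ) : DD P →* KK P m where
  toFun d := ⟨fun _ => d, 0, _, fun _ => by rw [AddMonoidHom.zero_apply, zero_add]⟩
  map_one' := rfl
  map_mul' _ _ := rfl

def evl (m : ℕ) (l : Fin m → ZMod 2) : KK P m →* DD P :=
  (Pi.evalMonoidHom (fun _ => DD P) l).comp (KK P m).subtype

noncomputable def cc (m : ℕ) : GG P →* KK P (m + 1) ⧸ NN P (m + 1) :=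
  QuotientGroup.lift (ZZ P) ((QuotientGroup.mk' _).comp (diag P (m + 1))) (by
    intro d hd
    rw [MonoidHom.mem_ker, MonoidHom.comp_apply, QuotientGroup.mk'_apply, QuotientGroup.eq_one_iff]
    refine ⟨fun _ => hd, even_sum _ (fun _ => 1) ?_ fun _ => rfl⟩
    intro h
    have := congrFun h 0
    simp at this)

lemma cc_mk (m : ℕ) (d : DD P) :
    cc P m (QuotientGroup.mk d) = QuotientGroup.mk' _ (diag P (m + 1) d) := rfl

lemma sat {w : FreeGroup (ℕ ⊕ GG P)} (hw : ∀ x : ℕ → GG P, FreeGroup.lift (Sum.elim x id) w = 1)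
    {n : ℕ} (hn : ∀ (x x' : ℕ → E) (c : GG P → E), (∀ i < n, x i = x' i) →
      FreeGroup.lift (Sum.elim x c) w = FreeGroup.lift (Sum.elim x' c) w)
    (x : ℕ → KK P (n + 1) ⧸ NN P (n + 1)) : FreeGroup.lift (Sum.elim x (cc P n)) w = 1 := by
  choose k hk using fun i => QuotientGroup.mk'_surjective (NN P (n + 1)) (x i)
  have h1 : x = QuotientGroup.mk' (NN P (n + 1)) ∘ k := funext fun i => (hk i).symm
  have h2 : (cc P n : GG P → _) = QuotientGroup.mk' (NN P (n + 1)) ∘ (diag P (n + 1) ∘ ss P) := by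
    funext g
    have : g = QuotientGroup.mk (ss P g) := (Quotient.out_eq g).symm
    conv_lhs => rw [this]
    rfl
  rw [h1, h2, ← nat_lift, QuotientGroup.mk'_apply, QuotientGroup.eq_one_iff]
  have h3 : ∀ l, (FreeGroup.lift (Sum.elim k (diag P (n + 1) ∘ ss P)) w).1 l
      = FreeGroup.lift (Sum.elim (fun i => (k i).1 l) (ss P)) w := fun l =>
    nat_lift (evl P (n + 1) l) k _ w
  refine ⟨fun l => by rw [h3]; exact inZ P hw _, ?_⟩
  choose φ c hφ using fun i => (k i).2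
  obtain ⟨l1, l2, hne, heq⟩ := Fintype.exists_ne_map_eq_of_card_lt
    (fun (l : Fin (n + 1) → ZMod 2) (i : Fin n) => φ i l) (by simp [pow_succ])
  refine even_sum _ (l1 - l2) (sub_ne_zero.2 hne) fun l => ?_
  rw [h3, h3]
  congr 1
  refine lemA P hw hn _ _ fun i hi => ?_
  apply Multiplicative.toAdd.injective
  have h4 : φ i l1 = φ i l2 := congrFun heq ⟨i, hi⟩
  rw [hφ, hφ, map_add, map_sub, h4, sub_self, add_zero]

def a1 : DD P := ⟨(P.a, 1), P.δa.trans (map_one P.δ).symm⟩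
def i1 : DD P := ⟨(P.i, 1), P.δi.trans (map_one P.δ).symm⟩
def a2 : DD P := ⟨(1, P.a), (map_one P.δ).trans P.δa.symm⟩
def i2 : DD P := ⟨(1, P.i), (map_one P.δ).trans P.δi.symm⟩

lemma VD (y : ℕ → DD P) (m : ℕ) : VV (a1 P) (i1 P) y m * VV (a2 P) (i2 P) y m
    = if (∀ j < m, P.δ (y j).1.1 = Multiplicative.ofAdd 1) then zz P else 1 := by
  apply DD_ext
  · rw [map_mul, map_VV, map_VV]
    have e1 : p1 P (i2 P) = 1 := rfl
    have e2 : p1 P (i1 P) = P.i := rfl
    have e3 : p1 P (a1 P) = P.a := rfl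
    rw [e1, e2, e3, VV_one, mul_one, VE]
    by_cases h : ∀ j < m, P.δ (y j).1.1 = Multiplicative.ofAdd 1
    · rw [if_pos h, if_pos (by exact h)]; rfl
    · rw [if_neg h, if_neg (by exact h)]; rfl
  · rw [map_mul, map_VV, map_VV]
    have e1 : p2 P (i1 P) = 1 := rfl
    have e2 : p2 P (i2 P) = P.i := rfl
    have e3 : p2 P (a2 P) = P.a := rfl
    rw [e1, e2, e3, VV_one, one_mul, VE]
    by_cases h : ∀ j < m, P.δ (y j).1.1 = Multiplicative.ofAdd 1
    · rw [if_pos h, if_pos (by exact fun j hj => (DD_prop P (y j)).symm.trans (h j hj))]; rfl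
    · rw [if_neg h, if_neg (by exact fun h' => h fun j hj => (DD_prop P (y j)).trans (h' j hj))]; rfl

noncomputable def w0 (m : ℕ) : FreeGroup (ℕ ⊕ GG P) :=
  VV (FreeGroup.of (Sum.inr (QuotientGroup.mk (a1 P)))) (FreeGroup.of (Sum.inr (QuotientGroup.mk (i1 P))))
      (fun j => FreeGroup.of (Sum.inl j)) m *
    VV (FreeGroup.of (Sum.inr (QuotientGroup.mk (a2 P)))) (FreeGroup.of (Sum.inr (QuotientGroup.mk (i2 P))))
      (fun j => FreeGroup.of (Sum.inl j)) m

lemma w0_ev {M : Type} [Group M] (m : ℕ) (x : ℕ → M) (c : GG P → M) :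
    FreeGroup.lift (Sum.elim x c) (w0 P m)
      = VV (c (QuotientGroup.mk (a1 P))) (c (QuotientGroup.mk (i1 P))) x m *
        VV (c (QuotientGroup.mk (a2 P))) (c (QuotientGroup.mk (i2 P))) x m := by
  have : (FreeGroup.lift (Sum.elim x c)) ∘ (fun j => FreeGroup.of (Sum.inl j : ℕ ⊕ GG P)) = x := by
    funext j; simp
  rw [w0, map_mul, map_VV, map_VV, this]
  simp

lemma w0_id (m : ℕ) (x : ℕ → GG P) : FreeGroup.lift (Sum.elim x id) (w0 P m) = 1 := by
  choose y hy using fun i => QuotientGroup.mk'_surjective (ZZ P) (x i)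
  have h1 : x = QuotientGroup.mk' (ZZ P) ∘ y := funext fun i => (hy i).symm
  have h2 := map_mul (QuotientGroup.mk' (ZZ P)) (VV (a1 P) (i1 P) y m) (VV (a2 P) (i2 P) y m)
  rw [map_VV, map_VV] at h2
  rw [w0_ev, h1]
  refine h2.symm.trans ?_
  rw [QuotientGroup.mk'_apply, QuotientGroup.eq_one_iff, VD]
  split_ifs
  · exact Or.inr rfl
  · exact Or.inl rfl

noncomputable def kx (m j : ℕ) : KK P m :=
  ⟨fun l => if (∃ h : j < m, l ⟨j, h⟩ = 1) then ⟨(P.b, P.b), rfl⟩ else 1, by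
    by_cases h : j < m
    · refine ⟨Pi.evalAddMonoidHom (fun _ => ZMod 2) ⟨j, h⟩, 0, fun l => ?_⟩
      have h0 : ∀ a : ZMod 2, a = 1 ∨ a = 0 := by decide
      rcases h0 (l ⟨j, h⟩) with h1 | h1
      · simp only [if_pos (⟨h, h1⟩ : ∃ h : j < m, l ⟨j, h⟩ = 1), P.δb]
        simp [h1]
      · have : ¬ ∃ h : j < m, l ⟨j, h⟩ = 1 := by
          rintro ⟨_, h2⟩
          rw [h1] at h2
          exact absurd h2 (by decide)
        simp only [if_neg this]
        simp [h1]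
    · refine ⟨0, 0, fun l => ?_⟩
      have : ¬ ∃ h : j < m, l ⟨j, h⟩ = 1 := fun ⟨h', _⟩ => h h'
      simp only [if_neg this]
      simp⟩

lemma w0_fail (n : ℕ) :
    FreeGroup.lift (Sum.elim (QuotientGroup.mk' (NN P (n + 1)) ∘ kx P (n + 1)) (cc P n))
      (w0 P (n + 1)) ≠ 1 := by
  rw [w0_ev, cc_mk, cc_mk, cc_mk, cc_mk, ← map_VV, ← map_VV, ← map_mul, QuotientGroup.mk'_apply,
    Ne, QuotientGroup.eq_one_iff]
  rintro ⟨-, h⟩
  have h3 : ∀ l, (VV (diag P (n + 1) (a1 P)) (diag P (n + 1) (i1 P)) (kx P (n + 1)) (n + 1) *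
      VV (diag P (n + 1) (a2 P)) (diag P (n + 1) (i2 P)) (kx P (n + 1)) (n + 1)).1 l
      = if l = fun _ => 1 then zz P else 1 := by
    intro l
    have h4 := map_mul (evl P (n + 1) l)
      (VV (diag P (n + 1) (a1 P)) (diag P (n + 1) (i1 P)) (kx P (n + 1)) (n + 1))
      (VV (diag P (n + 1) (a2 P)) (diag P (n + 1) (i2 P)) (kx P (n + 1)) (n + 1))
    rw [map_VV, map_VV] at h4
    refine h4.trans ((VD P _ _).trans ?_)
    refine if_congr ⟨fun h5 => ?_, fun h5 j hj => ?_⟩ rfl rfl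
    · funext j
      by_contra h6
      have h7 := h5 j j.2
      have h8 : ¬ ∃ h : (j : ℕ) < n + 1, l ⟨j, h⟩ = 1 := fun ⟨_, h9⟩ => h6 h9
      change P.δ ((kx P (n + 1) j).1 l).1.1 = _ at h7
      simp only [kx, if_neg h8] at h7
      rw [show ((1 : DD P).1.1) = 1 from rfl, map_one] at h7
      exact absurd h7 (by decide)
    · change P.δ ((kx P (n + 1) j).1 l).1.1 = _
      have h8 : ∃ h : j < n + 1, l ⟨j, h⟩ = 1 := ⟨hj, by rw [h5]⟩
      simp only [kx, if_pos h8]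
      exact P.δb
  simp only [h3] at h
  rw [Finset.sum_eq_single (fun _ => 1)] at h
  · simp [chi, zz_ne P] at h
  · intro l _ hl
    simp [chi, hl]
  · simp

include P in
theorem main [Finite E] : ∃ (G : Type) (_ : Group G) (_ : Finite G),
    ∀ S : Set (FreeGroup (ℕ ⊕ G)), S.Finite →
      (∀ w ∈ S, ∀ x : ℕ → G, FreeGroup.lift (Sum.elim x id) w = 1) →
      ∃ (H : Type) (_ : Group H) (c : G →* H),
        (∀ w ∈ S, ∀ x : ℕ → H, FreeGroup.lift (Sum.elim x c) w = 1) ∧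
        ∃ w₀ : FreeGroup (ℕ ⊕ G), (∀ x : ℕ → G, FreeGroup.lift (Sum.elim x id) w₀ = 1) ∧
          ∃ x : ℕ → H, FreeGroup.lift (Sum.elim x c) w₀ ≠ 1 := by
  refine ⟨GG P, inferInstance, inferInstance, fun S hS hw => ?_⟩
  choose N hN using fun w : FreeGroup (ℕ ⊕ GG P) => dep (M := E) w
  obtain ⟨n, hn⟩ := (hS.image N).bddAbove
  refine ⟨KK P (n + 1) ⧸ NN P (n + 1), inferInstance, cc P n, fun w hwS x => ?_,
    w0 P (n + 1), w0_id P _, _, w0_fail P n⟩
  refine sat P (hw w hwS) (fun x x' c h => hN w x x' c fun i hi => h i ?_) x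
  exact lt_of_lt_of_le hi (hn ⟨w, hwS, rfl⟩)

end

end Pool.Agent.H.MP_fd3e90_al
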